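import Pool.Agent.Y898.PolyGaps

/-!
# Polynomial return times along all increasing sums of consecutive gaps (helper5)

From `Pool.Agent.Y898.PolyGaps.gaps_of_blocks` and `Pool.Agent.Y898.Den.returns` (helper898).
-/

set_option autoImplicit false
set_option maxHeartbeats 4000000

namespace Pool.Agent.L7h5.PG

open Finset Filter
open Pool.Agent.H256R2.SC (ff)
open Pool.Agent.Y898.PR (ev Inc)
open Pool.Agent.Y898.PolyGaps (Cl)

/-- the coefficients of a polynomial map -/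
noncomputable def cf {k e : ℕ} (D : ℕ) (P : Fin e → MvPolynomial (Fin k) ℝ)
    (m : Fin k → Fin (D + 1)) : Fin e → ℝ :=
  fun i => (P i).coeff (Finsupp.equivFunOnFinite.symm (fun l => (m l : ℕ)))

theorem ev_cf {k e : ℕ} (D : ℕ) (P : Fin e → MvPolynomial (Fin k) ℝ)
    (hP : ∀ i, (P i).totalDegree ≤ D) (x : Fin k → ℝ) (i : Fin e) :
    ev (cf D P) x i = MvPolynomial.eval x (P i) := by
  classical
  unfold ev cf
  rw [Finset.sum_apply, MvPolynomial.eval_eq']
  obtain ⟨g, hg⟩ : ∃ g : (Fin k → Fin (D + 1)) → (Fin k →₀ ℕ),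
      g = fun m => Finsupp.equivFunOnFinite.symm (fun l => (m l : ℕ)) := ⟨_, rfl⟩
  have hginj : Function.Injective g := by
    intro a b hab
    rw [hg] at hab
    have h1 := Finsupp.equivFunOnFinite.symm.injective hab
    funext l
    exact Fin.ext (congrFun h1 l)
  have h1 : ∑ m : Fin k → Fin (D + 1), ((∏ l, x l ^ (m l : ℕ)) •
      fun i : Fin e => (P i).coeff (Finsupp.equivFunOnFinite.symm (fun l => (m l : ℕ)))) i =
      ∑ d ∈ univ.image g, (P i).coeff d * ∏ l, x l ^ d l := by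
    rw [sum_image (fun a _ b _ h => hginj h)]
    refine sum_congr rfl fun m _ => ?_
    rw [Pi.smul_apply, smul_eq_mul, mul_comm, hg]
    rfl
  rw [h1]
  symm
  refine sum_subset ?_ ?_
  · intro d hd
    rw [mem_image]
    have hle : ∀ l, d l ≤ D := by
      intro l
      have h2 := MvPolynomial.le_totalDegree hd
      have h3 : d l ≤ d.sum fun _ e => e := by
        rw [Finsupp.sum_fintype _ _ (fun _ => rfl)]
        exact single_le_sum (f := fun l => d l) (fun _ _ => Nat.zero_le _) (mem_univ l)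
      exact h3.trans (h2.trans (hP i))
    refine ⟨fun l => ⟨d l, by have := hle l; omega⟩, mem_univ _, ?_⟩
    rw [hg]
    ext l
    simp
  · intro d _ hd
    rw [MvPolynomial.notMem_support_iff.1 hd, zero_mul]

theorem cf_zero {k e : ℕ} (D : ℕ) (P : Fin e → MvPolynomial (Fin k) ℝ)
    (hP : ∀ i, (P i).coeff 0 = 0) : cf D P 0 = 0 := by
  funext i
  unfold cf
  have h1 : Finsupp.equivFunOnFinite.symm (fun l => (((0 : Fin k → Fin (D + 1)) l : Fin (D + 1)) : ℕ)) =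
      (0 : Fin k →₀ ℕ) := by
    ext l
    simp
  rw [h1, hP i]
  rfl

/-- polynomial return times for all increasing sums of consecutive gaps, at every scale -/
theorem poly_sums (k m K N D s : ℕ) (ε : ℝ) (hε : 0 < ε) : ∃ η : ℝ, 0 < η ∧
    ∃ c C : ℝ, 0 < c ∧ 0 < C ∧ ∀ᶠ x : ℝ in atTop, ∀ H : ℝ, 1 ≤ H → H ≤ c * ff x →
    ∀ (e : ℕ) (P : Fin N → Fin e → MvPolynomial (Fin k) ℝ),
    (∀ j i, (P j i).totalDegree ≤ D ∧ (P j i).coeff 0 = 0) →
    ∀ S : Finset (Fin e), S.card ≤ s →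
    (∀ i, i ∉ S → ∀ j, ∀ v : Fin k → ℤ, ∃ u : ℤ,
      MvPolynomial.eval (fun l => (v l : ℝ)) (P j i) = u) →
    ∀ (Ψ : (Fin e → ℤ) → Fin K),
    x ^ (7 / 8 : ℝ) ≤ (Set.ncard (Cl c C x H m (fun v => ∀ F : Fin k → Finset (Fin m),
      (∀ l, (F l).Nonempty) → (∀ l l', l < l' → ∀ i ∈ F l, ∀ j ∈ F l', i < j) →
      (∀ j i, |MvPolynomial.eval (fun l => ((∑ t ∈ F l, v t : ℤ) : ℝ)) (P j i) -
        round (MvPolynomial.eval (fun l => ((∑ t ∈ F l, v t : ℤ) : ℝ)) (P j i))| < ε) ∧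
      Pool.Agent.TH709.RGap.Dense {a : Fin e → ℤ | ∀ j, Ψ (fun i => a i +
        round (MvPolynomial.eval (fun l => ((∑ t ∈ F l, v t : ℤ) : ℝ)) (P j i))) = Ψ a} η)) : ℝ) := by
  classical
  obtain ⟨r, η, hη, hret⟩ := Pool.Agent.Y898.Den.returns k K N D s ε hε
  obtain ⟨c, C, hc, hC, hx⟩ := Pool.Agent.Y898.PolyGaps.gaps_of_blocks k m r
  refine ⟨η, hη, c, C, hc, hC, ?_⟩
  filter_upwards [hx] with x hxx H hH hHc e P hP S hS hint Ψ
  refine hxx H hH hHc (fun w : Fin k → ℤ =>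
    (∀ j i, |MvPolynomial.eval (fun l => ((w l : ℤ) : ℝ)) (P j i) -
        round (MvPolynomial.eval (fun l => ((w l : ℤ) : ℝ)) (P j i))| < ε) ∧
      Pool.Agent.TH709.RGap.Dense {a : Fin e → ℤ | ∀ j, Ψ (fun i => a i +
        round (MvPolynomial.eval (fun l => ((w l : ℤ) : ℝ)) (P j i))) = Ψ a} η) ?_
  intro B hB y hy
  have hev : ∀ j (z : Fin k → ℝ) i, ev (cf D (P j)) z i = MvPolynomial.eval z (P j i) :=
    fun j z i => ev_cf D (P j) (fun i => (hP j i).1) z i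
  obtain ⟨α, hα, h1, h2⟩ := hret e (fun j => cf D (P j))
    (fun j => cf_zero D (P j) fun i => (hP j i).2) S hS (by
      intro i hi j v
      obtain ⟨u, hu⟩ := hint i hi j v
      exact ⟨u, by rw [hev, hu]⟩) Ψ (fun n => ((B * y n : ℕ) : ℤ))
  simp only [hev] at h1 h2
  exact ⟨α, hα, h1, h2⟩

end Pool.Agent.L7h5.PG
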